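import Pool.Agent.helper9.TH.Spec

set_option linter.all false

/-! Row T5q of the plan for MP_fd6eef. -/

namespace Pool.Agent.helper22.TH

open Pool.Agent.helper9.TH

universe u

theorem T5q_pow {p : ℕ} (hp : p.Prime) {V : Type u} [AddCommGroup V] [Finite V]
    (hV : ∀ v : V, p • v = 0) (W : AddSubgroup V) : ∃ n : ℕ, Nat.card W = p ^ n := by
  haveI : Fact p.Prime := ⟨hp⟩
  have h : IsPGroup p (Multiplicative W) := by
    intro g
    refine ⟨1, ?_⟩
    rw [pow_one]
    apply Multiplicative.toAdd.injective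
    rw [toAdd_pow, toAdd_one]
    apply Subtype.ext
    rw [AddSubgroup.coe_nsmul, AddSubgroup.coe_zero]
    exact hV _
  obtain ⟨n, hn⟩ := IsPGroup.iff_card.1 h
  exact ⟨n, hn⟩

theorem T5q_zpow {V : Type u} [AddCommGroup V] (β : (AddMonoid.End V)ˣ) (v : V)
    (hv : (β : AddMonoid.End V) v = v) (γ : (AddMonoid.End V)ˣ) (hγ : γ ∈ Subgroup.zpowers β) :
    (γ : AddMonoid.End V) v = v := by
  have h1 : β ∈ MulAction.stabilizer (AddMonoid.End V)ˣ v := by
    rw [MulAction.mem_stabilizer_iff]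
    exact hv
  have h2 : Subgroup.zpowers β ≤ MulAction.stabilizer (AddMonoid.End V)ˣ v := by
    rw [Subgroup.zpowers_le]
    exact h1
  have h3 := h2 hγ
  rw [MulAction.mem_stabilizer_iff] at h3
  exact h3

theorem T5q_mul {V : Type u} [AddCommGroup V] (f g : AddMonoid.End V) (v : V) :
    (f * g) v = f (g v) := rfl

theorem T5q_one {V : Type u} [AddCommGroup V] (v : V) :
    (1 : AddMonoid.End V) v = v := rfl

theorem T5q (hg : T5g_stmt.{u}) (hy : T5y_stmt.{u}) : T5q_stmt.{u} := by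
  intro p V _ _ hp hV A Q hA hA1 hQ hQp hnorm hfaith hcard
  classical
  have hfinΓ : Finite (AddMonoid.End V)ˣ := by
    have h0 : Function.Injective (fun γ : (AddMonoid.End V)ˣ => fun v : V => (γ : AddMonoid.End V) v) := by
      intro γ δ h
      apply Units.ext
      apply AddMonoidHom.ext
      intro v
      exact congrFun h v
    exact Finite.of_injective _ h0
  let P : Subgroup (AddMonoid.End V)ˣ → Prop := fun B =>
    B ≤ A ∧ B ≠ ⊥ ∧ Nat.card V ≤ Nat.card B * Nat.card (fixpts B)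
  have hex : ∃ n : ℕ, ∃ B, P B ∧ Nat.card B = n := ⟨_, A, ⟨le_rfl, hA1, hcard⟩, rfl⟩
  obtain ⟨B, hPB, hBn⟩ := Nat.find_spec hex
  have hmin : ∀ B', P B' → Nat.card B ≤ Nat.card B' := by
    intro B' hB'
    rw [hBn]
    exact Nat.find_min' hex ⟨B', hB', rfl⟩
  obtain ⟨hBA, hB1, hBV⟩ := hPB
  have hBEA : EA p B := ⟨fun x hx y hy => hA.1 x (hBA hx) y (hBA hy), fun x hx => hA.2 x (hBA hx)⟩
  obtain ⟨bb, hbb⟩ := Subgroup.ne_bot_iff_exists_ne_one.1 hB1
  obtain ⟨b0, hb0, hb01⟩ : ∃ b : (AddMonoid.End V)ˣ, b ∈ B ∧ b ≠ 1 :=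
    ⟨bb.1, bb.2, fun h' => hbb (Subtype.ext h')⟩
  have hnc : ∃ b ∈ B, ∃ x ∈ Q, b * x ≠ x * b := by
    by_contra hcon
    push Not at hcon
    exact hb01 (hfaith b0 (hBA hb0) (hcon b0 hb0))
  obtain ⟨C, hCB, hBC, x, hxQ, hCx, b, hbB, hbx⟩ := hg p (AddMonoid.End V)ˣ B Q hp inferInstance
    inferInstance hBEA hQ hQp (fun b hb => hnorm b (hBA hb)) hnc
  by_cases hC : C = ⊥
  · refine ⟨b0, hBA hb0, hb01, ?_⟩
    have hBp : Nat.card B = p := by
      rw [hBC, hC, Subgroup.card_bot, mul_one]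
    have hz : ∀ γ ∈ B, γ ∈ Subgroup.zpowers b0 := by
      intro γ hγ
      haveI : Fact p.Prime := ⟨hp⟩
      have h1 : Subgroup.zpowers (⟨b0, hb0⟩ : B) = ⊤ :=
        zpowers_eq_top_of_prime_card hBp (fun h => hb01 (congrArg Subtype.val h))
      have h2 : (⟨γ, hγ⟩ : B) ∈ Subgroup.zpowers (⟨b0, hb0⟩ : B) := by
        rw [h1]
        trivial
      obtain ⟨k, hk⟩ := Subgroup.mem_zpowers_iff.1 h2
      rw [Subgroup.mem_zpowers_iff]
      exact ⟨k, by simpa using congrArg Subtype.val hk⟩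
    refine hBV.trans ?_
    rw [hBp]
    apply Nat.mul_le_mul_left
    apply Nat.card_le_card_of_injective
      (fun w : fixpts B => (⟨w.1, w.2 b0 hb0⟩ : {v : V // (b0 : AddMonoid.End V) v = v}))
    intro w w' h
    apply Subtype.ext
    exact congrArg (fun z : {v : V // (b0 : AddMonoid.End V) v = v} => z.1) h
  · exfalso
    have hCpos : 0 < Nat.card C := Nat.card_pos
    have hlt : Nat.card C < Nat.card B := by
      rw [hBC]
      nlinarith [hp.two_le]
    have hnotP : ¬ (Nat.card V ≤ Nat.card C * Nat.card (fixpts C)) := by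
      intro h
      have := hmin C ⟨hCB.trans hBA, hC, h⟩
      omega
    have hle : fixpts B ≤ fixpts C := fun v hv c hc => hv c (hCB hc)
    obtain ⟨i, hi⟩ := T5q_pow hp hV (fixpts B)
    obtain ⟨j, hj⟩ := T5q_pow hp hV (fixpts C)
    have hlt2 : Nat.card (fixpts C) < p * Nat.card (fixpts B) := by
      have h1 : Nat.card C * Nat.card (fixpts C) < Nat.card C * (p * Nat.card (fixpts B)) := by
        calc Nat.card C * Nat.card (fixpts C) < Nat.card V := not_le.1 hnotP
          _ ≤ Nat.card B * Nat.card (fixpts B) := hBV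
          _ = Nat.card C * (p * Nat.card (fixpts B)) := by rw [hBC]; ring
      exact lt_of_mul_lt_mul_left h1 (Nat.zero_le _)
    have hji : j ≤ i := by
      rw [hi, hj, ← pow_succ'] at hlt2
      have := (Nat.pow_lt_pow_iff_right hp.one_lt).1 hlt2
      omega
    have heq : fixpts B = fixpts C := by
      apply AddSubgroup.eq_of_le_of_card_ge hle
      rw [hi, hj]
      exact Nat.pow_le_pow_right hp.pos hji
    have hyQ : x * (b * x⁻¹ * b⁻¹) ∈ Q := Q.mul_mem hxQ (hnorm b (hBA hbB) _ (Q.inv_mem hxQ))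
    have hy1 : x * (b * x⁻¹ * b⁻¹) = 1 := by
      refine hy p V hp hV C _ ?_ ?_ ?_ ?_
      · intro c
        refine ⟨1, ?_⟩
        apply Subtype.ext
        rw [pow_one, Subgroup.coe_pow, Subgroup.coe_one]
        exact hBEA.2 _ (hCB c.2)
      · exact Nat.Coprime.coprime_dvd_left (Subgroup.orderOf_dvd_natCard Q hyQ) hQp
      · intro c hc
        have h1 : Commute c x := hCx c hc
        have h2 : Commute c b := hBEA.1 c (hCB hc) b hbB
        exact (h1.mul_right ((h2.mul_right h1.inv_right).mul_right h2.inv_right)).eq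
      · intro v hv
        have hvB : v ∈ fixpts B := heq ▸ hv
        have e1 : ((b⁻¹ : (AddMonoid.End V)ˣ) : AddMonoid.End V) v = v := hvB _ (B.inv_mem hbB)
        have e2 : ((x⁻¹ : (AddMonoid.End V)ˣ) : AddMonoid.End V) v ∈ fixpts C := by
          intro c hc
          have h1 : c * x⁻¹ = x⁻¹ * c := (show Commute c x from hCx c hc).inv_right.eq
          have h2 := congrArg (fun γ : (AddMonoid.End V)ˣ => (γ : AddMonoid.End V) v) h1
          simp only [Units.val_mul, T5q_mul] at h2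
          rw [h2, hv c hc]
        rw [← heq] at e2
        have e3 := e2 b hbB
        have e4 : (x : AddMonoid.End V) (((x⁻¹ : (AddMonoid.End V)ˣ) : AddMonoid.End V) v) = v := by
          rw [← T5q_mul, ← Units.val_mul, mul_inv_cancel, Units.val_one,
            T5q_one]
        rw [Units.val_mul, Units.val_mul, Units.val_mul, T5q_mul,
          T5q_mul, T5q_mul, e1, e3, e4]
    apply hbx
    have h5 : x * b = b * x := by
      have h6 : x * (b * x⁻¹ * b⁻¹) = x * b * x⁻¹ * b⁻¹ := by group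
      rw [h6] at hy1
      have h7 : x * b * x⁻¹ = b := by
        rw [mul_inv_eq_one] at hy1
        exact hy1
      rw [mul_inv_eq_iff_eq_mul] at h7
      exact h7
    exact h5.symm

end Pool.Agent.helper22.TH
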